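import Mathlib
import Pool.Agent.Lib.MP_70146a_co.Upper
import Pool.Agent.Lib.MP_70146a_co.LowerAsymp
import Pool.Agent.Lib.MP_70146a_co.Geometry

/-!
# Harmonic alternating paths and matchings in separated convex bicoloured sets

We prove that the guaranteed length `f n` of a longest harmonic alternating path and the
guaranteed size `g n` of a largest harmonic alternating matching are both `n` up to
polylogarithmic factors, and are both `o(n)`.
-/

namespace Pool.Agent.Lib.MP_70146a_co.Old.PolylogBounds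

open Finset
open Pool.Agent.Lib.MP_70146a_co

/-- Twice the signed area of the triangle `p q r`; positive iff `p, q, r` is counterclockwise. -/
def orientation (p q r : ℝ × ℝ) : ℝ := (q.1 - p.1) * (r.2 - p.2) - (q.2 - p.2) * (r.1 - p.1)

/-- A configuration: `red i` is the red point with label `i`, `blue j` is the blue point with
label `j`.  All points are distinct and in convex position, a line strictly separates the red
points from the blue points, and the labels of the red points follow the cyclic (counterclockwise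
or clockwise) order of the red points on the boundary of the convex hull. -/
structure Config (n : ℕ) where
  red : Fin n → ℝ × ℝ
  blue : Fin n → ℝ × ℝ
  red_injective : Function.Injective red
  blue_injective : Function.Injective blue
  convexPosition : ∀ p ∈ Set.range red ∪ Set.range blue,
    p ∉ convexHull ℝ ((Set.range red ∪ Set.range blue) \ {p})
  separated : ∃ α β c : ℝ, (∀ i, α * (red i).1 + β * (red i).2 < c) ∧
    (∀ j, c < α * (blue j).1 + β * (blue j).2)
  cyclicOrder : (∀ i j k : Fin n, i < j → j < k → 0 < orientation (red i) (red j) (red k)) ∨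
    (∀ i j k : Fin n, i < j → j < k → orientation (red i) (red j) (red k) < 0)

/-- Vertices: `Sum.inl i` is the red point with label `i`, `Sum.inr j` the blue point with
label `j`. -/
abbrev Vertex (n : ℕ) := Fin n ⊕ Fin n

/-- The position of a vertex. -/
def Config.pos {n : ℕ} (C : Config n) : Vertex n → ℝ × ℝ := Sum.elim C.red C.blue

/-- The label of a vertex. -/
def label {n : ℕ} : Vertex n → ℕ := Sum.elim (fun i => (i : ℕ)) (fun j => (j : ℕ))

/-- `v 0, v 1, …, v m` is a harmonic alternating path with `m` edges. -/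
structure IsHarmonicAlternatingPath {n : ℕ} (C : Config n) (m : ℕ) (v : ℕ → Vertex n) : Prop where
  /-- no repeated vertices -/
  simple : ∀ k ≤ m, ∀ l ≤ m, v k = v l → k = l
  /-- each edge joins a red point to a blue point -/
  alternating : ∀ k < m, (v k).isLeft ≠ (v (k + 1)).isLeft
  /-- the edges have pairwise distinct weights -/
  harmonic : ∀ k < m, ∀ l < m,
    label (v k) + label (v (k + 1)) = label (v l) + label (v (l + 1)) → k = l
  /-- two different edges meet at most in a common endpoint -/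
  plane : ∀ k < m, ∀ l < m, k ≠ l →
    ∀ x ∈ segment ℝ (C.pos (v k)) (C.pos (v (k + 1))),
      x ∈ segment ℝ (C.pos (v l)) (C.pos (v (l + 1))) →
      ∃ w, (w = v k ∨ w = v (k + 1)) ∧ (w = v l ∨ w = v (l + 1)) ∧ x = C.pos w

/-- `E` is (the set of pairs (red label, blue label) of the edges of) a harmonic alternating
matching. -/
structure IsHarmonicAlternatingMatching {n : ℕ} (C : Config n) (E : Finset (Fin n × Fin n)) :
    Prop where
  /-- different edges have no common endpoint -/
  matching : ∀ e ∈ E, ∀ e' ∈ E, e ≠ e' → e.1 ≠ e'.1 ∧ e.2 ≠ e'.2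
  /-- different edges have different weights -/
  harmonic : ∀ e ∈ E, ∀ e' ∈ E, (e.1 : ℕ) + e.2 = e'.1 + e'.2 → e = e'
  /-- different edges do not meet -/
  plane : ∀ e ∈ E, ∀ e' ∈ E, e ≠ e' →
    Disjoint (segment ℝ (C.red e.1) (C.blue e.2)) (segment ℝ (C.red e'.1) (C.blue e'.2))

/-- The maximum length of a harmonic alternating path on a configuration. -/
noncomputable def L {n : ℕ} (C : Config n) : ℕ :=
  sSup {m : ℕ | ∃ v, IsHarmonicAlternatingPath C m v}

/-- The maximum size of a harmonic alternating matching on a configuration. -/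
noncomputable def M {n : ℕ} (C : Config n) : ℕ :=
  sSup {m : ℕ | ∃ E, IsHarmonicAlternatingMatching C E ∧ E.card = m}

/-- `f n`: the minimum of `L` over all configurations. -/
noncomputable def f (n : ℕ) : ℕ := sInf (Set.range fun C : Config n => L C)

/-- `g n`: the minimum of `M` over all configurations. -/
noncomputable def g (n : ℕ) : ℕ := sInf (Set.range fun C : Config n => M C)

/-! ### Basic facts on `L` and `M` -/

lemma path_bound {n : ℕ} {C : Config n} {m : ℕ} {v : ℕ → Vertex n}
    (h : IsHarmonicAlternatingPath C m v) : m + 1 ≤ 2 * n := by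
  have h1 : (range (m + 1)).card ≤ (Finset.univ : Finset (Vertex n)).card := by
    apply Finset.card_le_card_of_injOn v
    · intro _ _; exact Finset.mem_coe.mpr (Finset.mem_univ _)
    · intro k hk l hl hkl
      rw [Finset.mem_coe, mem_range] at hk hl
      exact h.simple k (by omega) l (by omega) hkl
  rw [card_range, Finset.card_univ, Fintype.card_sum, Fintype.card_fin] at h1
  omega

lemma bddAbove_L {n : ℕ} (C : Config n) :
    BddAbove {m : ℕ | ∃ v, IsHarmonicAlternatingPath C m v} :=
  ⟨2 * n, by rintro m ⟨v, hv⟩; have := path_bound hv; omega⟩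

lemma le_L {n : ℕ} {C : Config n} {m : ℕ} {v : ℕ → Vertex n}
    (h : IsHarmonicAlternatingPath C m v) : m ≤ L C := le_csSup (bddAbove_L C) ⟨v, h⟩

lemma bddAbove_M {n : ℕ} (C : Config n) :
    BddAbove {m : ℕ | ∃ E, IsHarmonicAlternatingMatching C E ∧ E.card = m} :=
  ⟨(Finset.univ : Finset (Fin n × Fin n)).card, by
    rintro m ⟨E, _, rfl⟩; exact Finset.card_le_card (Finset.subset_univ _)⟩

lemma le_M {n : ℕ} {C : Config n} {E : Finset (Fin n × Fin n)}
    (h : IsHarmonicAlternatingMatching C E) : E.card ≤ M C := le_csSup (bddAbove_M C) ⟨E, h, rfl⟩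

/-- On a nonempty configuration the maximum `L C` is attained. -/
theorem isGreatest_L {n : ℕ} (hn : 0 < n) (C : Config n) :
    IsGreatest {m : ℕ | ∃ v, IsHarmonicAlternatingPath C m v} (L C) := by
  refine ⟨Nat.sSup_mem ⟨0, fun _ => Sum.inl ⟨0, hn⟩, ?_⟩ (bddAbove_L C), fun m hm =>
    le_csSup (bddAbove_L C) hm⟩
  constructor
  · intro k hk l hl _; omega
  · intro k hk; omega
  · intro k hk; omega
  · intro k hk; omega

/-- The maximum `M C` is attained. -/
theorem isGreatest_M {n : ℕ} (C : Config n) :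
    IsGreatest {m : ℕ | ∃ E, IsHarmonicAlternatingMatching C E ∧ E.card = m} (M C) := by
  refine ⟨Nat.sSup_mem ⟨0, ∅, ?_, rfl⟩ (bddAbove_M C), fun m hm => le_csSup (bddAbove_M C) hm⟩
  constructor <;> simp

/-- Every other edge of a path. -/
lemma half {n : ℕ} {C : Config n} {m : ℕ} {v : ℕ → Vertex n}
    (h : IsHarmonicAlternatingPath C m v) :
    ∃ E, IsHarmonicAlternatingMatching C E ∧ m ≤ 2 * E.card := by
  classical
  have hex : ∀ k, k < m → ∃ e : Fin n × Fin n,
      (v k = Sum.inl e.1 ∧ v (k + 1) = Sum.inr e.2) ∨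
      (v k = Sum.inr e.2 ∧ v (k + 1) = Sum.inl e.1) := by
    intro k hk
    have h1 := h.alternating k hk
    rcases hv1 : v k with p | u <;> rcases hv2 : v (k + 1) with q | w
    · rw [hv1, hv2] at h1; simp at h1
    · exact ⟨(p, w), Or.inl ⟨rfl, rfl⟩⟩
    · exact ⟨(q, u), Or.inr ⟨rfl, rfl⟩⟩
    · rw [hv1, hv2] at h1; simp at h1
  rcases Nat.eq_zero_or_pos m with hm0 | hmpos
  · exact ⟨∅, ⟨by simp, by simp, by simp⟩, by omega⟩
  have hne : Nonempty (Fin n × Fin n) := ⟨(hex 0 hmpos).choose⟩
  choose! e he using hex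
  have hred : ∀ k < m, (Sum.inl (e k).1 = v k ∨ Sum.inl (e k).1 = v (k + 1)) := by
    intro k hk
    rcases he k hk with h1 | h1
    · exact Or.inl h1.1.symm
    · exact Or.inr h1.2.symm
  have hblue : ∀ k < m, (Sum.inr (e k).2 = v k ∨ Sum.inr (e k).2 = v (k + 1)) := by
    intro k hk
    rcases he k hk with h1 | h1
    · exact Or.inr h1.2.symm
    · exact Or.inl h1.1.symm
  have hseg : ∀ k < m, segment ℝ (C.red (e k).1) (C.blue (e k).2)
      = segment ℝ (C.pos (v k)) (C.pos (v (k + 1))) := by
    intro k hk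
    rcases he k hk with h1 | h1
    · rw [h1.1, h1.2]; rfl
    · rw [h1.1, h1.2, segment_symm]; rfl
  have hlab : ∀ k < m, ((e k).1 : ℕ) + (e k).2 = label (v k) + label (v (k + 1)) := by
    intro k hk
    rcases he k hk with h1 | h1
    · rw [h1.1, h1.2]; rfl
    · rw [h1.1, h1.2, add_comm]; rfl
  -- vertices of different even edges are different
  have hdiff : ∀ a b, 2 * a < m → 2 * b < m → a ≠ b → ∀ w,
      (w = v (2 * a) ∨ w = v (2 * a + 1)) → (w = v (2 * b) ∨ w = v (2 * b + 1)) → False := by
    intro a b ha hb hab w hw1 hw2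
    rcases hw1 with rfl | rfl <;> rcases hw2 with h1 | h1
    · have := h.simple _ (by omega) _ (by omega) h1; omega
    · have := h.simple _ (by omega) _ (by omega) h1; omega
    · have := h.simple _ (by omega) _ (by omega) h1; omega
    · have := h.simple _ (by omega) _ (by omega) h1; omega
  refine ⟨(range ((m + 1) / 2)).image fun a => e (2 * a), ?_, ?_⟩
  · have hmem : ∀ x ∈ (range ((m + 1) / 2)).image (fun a => e (2 * a)),
        ∃ a, 2 * a < m ∧ x = e (2 * a) := by
      intro x hx
      rw [Finset.mem_image] at hx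
      obtain ⟨a, ha, rfl⟩ := hx
      rw [mem_range] at ha
      exact ⟨a, by omega, rfl⟩
    constructor
    · intro x hx y hy hxy
      obtain ⟨a, ha, rfl⟩ := hmem x hx
      obtain ⟨b, hb, rfl⟩ := hmem y hy
      have hab : a ≠ b := by rintro rfl; exact hxy rfl
      constructor
      · intro heq
        refine hdiff a b ha hb hab (Sum.inl (e (2 * a)).1) (hred _ ha) ?_
        rw [heq]; exact hred _ hb
      · intro heq
        refine hdiff a b ha hb hab (Sum.inr (e (2 * a)).2) (hblue _ ha) ?_
        rw [heq]; exact hblue _ hb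
    · intro x hx y hy hxy
      obtain ⟨a, ha, rfl⟩ := hmem x hx
      obtain ⟨b, hb, rfl⟩ := hmem y hy
      rw [hlab _ ha, hlab _ hb] at hxy
      rw [h.harmonic _ ha _ hb hxy]
    · intro x hx y hy hxy
      obtain ⟨a, ha, rfl⟩ := hmem x hx
      obtain ⟨b, hb, rfl⟩ := hmem y hy
      have hab : a ≠ b := by rintro rfl; exact hxy rfl
      rw [Set.disjoint_left]
      intro z hz1 hz2
      rw [hseg _ ha] at hz1
      rw [hseg _ hb] at hz2
      obtain ⟨w, hw1, hw2, _⟩ := h.plane _ ha _ hb (by omega) z hz1 hz2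
      exact hdiff a b ha hb hab w hw1 hw2
  · have hinj : Set.InjOn (fun a => e (2 * a)) (range ((m + 1) / 2) : Set ℕ) := by
      intro a ha b hb hab
      rw [Finset.mem_coe, mem_range] at ha hb
      simp only at hab
      by_contra hne
      refine hdiff a b (by omega) (by omega) hne (Sum.inl (e (2 * a)).1) (hred _ (by omega)) ?_
      rw [hab]; exact hred _ (by omega)
    rw [Finset.card_image_of_injOn hinj, card_range]
    omega

lemma L_le_two_M {n : ℕ} (hn : 0 < n) (C : Config n) : L C ≤ 2 * M C := by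
  obtain ⟨v, hv⟩ := (isGreatest_L hn C).1
  obtain ⟨E, hE, hm⟩ := half hv
  have := le_M hE
  omega

/-! ### Geometry of a configuration -/

/-- Nonemptiness and linear structure of a configuration. -/
lemma linear_structure {n : ℕ} (hn : 0 < n) (C : Config n) :
    ∃ (c N : ℕ) (β : ℕ → Fin n), c + N ≤ n ∧ n ≤ 2 * N ∧
      (∀ x x', x < n → x' < n → β x = β x' → x = x') ∧
      (∀ p q : Fin n, c ≤ p → p < q → (q : ℕ) < c + N → ∀ x x', x < x' → x' < n →
        0 < orient (C.red q) (C.blue (β x')) (C.red p) *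
          orient (C.red q) (C.blue (β x')) (C.blue (β x))) ∧
      (∀ p q u : Fin n, p ≠ q → orient (C.blue u) (C.red p) (C.red q) ≠ 0) ∧
      (∀ p u w : Fin n, u ≠ w → orient (C.red p) (C.blue u) (C.blue w) ≠ 0) := by
  obtain ⟨α, γ, c, hr, hb⟩ := C.separated
  have hP : ConvPos (Set.range C.red ∪ Set.range C.blue) := C.convexPosition
  have hrm : ∀ i, C.red i ∈ Set.range C.red ∪ Set.range C.blue := fun i => Or.inl ⟨i, rfl⟩
  have hbm : ∀ i, C.blue i ∈ Set.range C.red ∪ Set.range C.blue := fun i => Or.inr ⟨i, rfl⟩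
  have hrb : ∀ i j, C.red i ≠ C.blue j := by
    intro i j h
    have h1 := hr i
    have h2 := hb j
    rw [h] at h1; linarith
  have hne1 : ∀ p q u : Fin n, p ≠ q → orient (C.blue u) (C.red p) (C.red q) ≠ 0 := by
    intro p q u hpq
    exact orient_ne_zero hP (hbm u) (hrm p) (hrm q) (hrb p u).symm (hrb q u).symm
      (fun h => hpq (C.red_injective h))
  have hne2 : ∀ p u w : Fin n, u ≠ w → orient (C.red p) (C.blue u) (C.blue w) ≠ 0 := by
    intro p u w huw
    exact orient_ne_zero hP (hrm p) (hbm u) (hbm w) (hrb p u) (hrb p w)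
      (fun h => huw (C.blue_injective h))
  let z : Fin n := ⟨0, hn⟩
  have hαγ : 0 < α ^ 2 + γ ^ 2 := by
    by_contra hcon
    push Not at hcon
    have h1 : α = 0 := by nlinarith [sq_nonneg α, sq_nonneg γ]
    have h2 : γ = 0 := by nlinarith [sq_nonneg α, sq_nonneg γ]
    have h3 := hr z
    have h4 := hb z
    rw [h1, h2] at h3 h4
    linarith
  obtain ⟨kR, hkR⟩ := exists_key C.red (C.blue z) α γ hαγ (-1) (fun i => by
    have h1 := hr i
    have h2 := hb z
    linarith)
  obtain ⟨kB, hkB⟩ := exists_key C.blue (C.red z) α γ hαγ 1 (fun i => by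
    have h1 := hr z
    have h2 := hb i
    linarith)
  have hquad : ∀ p q u w : Fin n, p ≠ q → u ≠ w →
      0 < orient (C.red p) (C.red q) (C.blue u) * orient (C.red p) (C.red q) (C.blue w) ∧
      0 < orient (C.blue u) (C.blue w) (C.red p) * orient (C.blue u) (C.blue w) (C.red q) := by
    intro p q u w hpq huw
    exact quad hP (hrm p) (hrm q) (hbm u) (hbm w) (fun h => hpq (C.red_injective h))
      (fun h => huw (C.blue_injective h)) α γ c (hr p) (hr q) (hb u) (hb w)
  have hR : ∀ p q u : Fin n, p ≠ q → (0 < orient (C.red p) (C.red q) (C.blue u) ↔ kR p < kR q) := by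
    intro p q u hpq
    rw [← hkR]
    by_cases hu : u = z
    · rw [hu]
    · have h1 := (hquad p q u z hpq hu).1
      exact pos_iff_pos_of_mul_pos h1
  have hB : ∀ u w p : Fin n, u ≠ w →
      (0 < orient (C.blue u) (C.blue w) (C.red p) ↔ kB u < kB w) := by
    intro u w p huw
    rw [← hkB]
    by_cases hp : p = z
    · rw [hp]
    · have h1 := (hquad p z u w hp huw).2
      exact pos_iff_pos_of_mul_pos h1
  have hkRinj : ∀ p q, p ≠ q → kR p ≠ kR q := by
    intro p q hpq heq
    have h1 : ¬ 0 < orient (C.red p) (C.red q) (C.blue z) := by rw [hR p q z hpq, heq]; simp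
    have h2 : ¬ 0 < orient (C.red q) (C.red p) (C.blue z) := by rw [hR q p z hpq.symm, heq]; simp
    have h3 := hne1 p q z hpq
    rw [orient_swap] at h2
    rw [orient_rot] at h3
    push Not at h1 h2
    apply h3
    linarith
  have hkBinj : ∀ u w, u ≠ w → kB u ≠ kB w := by
    intro u w huw heq
    have h1 : ¬ 0 < orient (C.blue u) (C.blue w) (C.red z) := by rw [hB u w z huw, heq]; simp
    have h2 : ¬ 0 < orient (C.blue w) (C.blue u) (C.red z) := by
      rw [hB w u z huw.symm, heq]; simp
    have h3 := hne2 z u w huw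
    rw [orient_swap] at h2
    rw [orient_rot] at h3
    push Not at h1 h2
    apply h3
    linarith
  -- three reds in key order
  have hcyc : ∀ p q s : Fin n, kR p < kR q → kR q < kR s →
      0 < orient (C.red p) (C.red q) (C.red s) := by
    intro p q s hpq hqs
    have npq : p ≠ q := by rintro rfl; exact lt_irrefl _ hpq
    have nqs : q ≠ s := by rintro rfl; exact lt_irrefl _ hqs
    have nps : p ≠ s := by rintro rfl; exact lt_asymm hpq hqs
    by_contra hcon
    push Not at hcon
    have h1 := (hR p q z npq).mpr hpq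
    have h2 := (hR q s z nqs).mpr hqs
    have h3 := (hR p s z nps).mpr (hpq.trans hqs)
    refine hull_contra hP (hrm q) (hrm p) (hrm s) (hbm z) (fun h => npq (C.red_injective h))
      (fun h => nqs (C.red_injective h.symm)) (hrb q z).symm
      (a := -orient (C.red p) (C.red s) (C.blue z)) (b := orient (C.red q) (C.red s) (C.blue z))
      (c := orient (C.red p) (C.red q) (C.blue z)) (d := -orient (C.red p) (C.red q) (C.red s))
      (by linarith) h2.le h1.le (by linarith) ?_ ?_ ?_
    · have := dep_sum (C.red p) (C.red q) (C.red s) (C.blue z); linarith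
    · have := dep_fst (C.red p) (C.red q) (C.red s) (C.blue z); linarith
    · have := dep_snd (C.red p) (C.red q) (C.red s) (C.blue z); linarith
  have hor : ∀ p q r : ℝ × ℝ, orientation p q r = orient p q r := fun _ _ _ => rfl
  -- it is enough to find the two runs and a suitable order of the blue points
  have hfin : ∀ (ε : ℝ) (m : Fin n), ε ≠ 0 →
      (∀ p q : Fin n, m ≤ p → p < q → ε * kR p < ε * kR q) →
      (∀ p q : Fin n, p < q → q < m → ε * kR p < ε * kR q) →
      ∃ (c N : ℕ) (β : ℕ → Fin n), c + N ≤ n ∧ n ≤ 2 * N ∧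
      (∀ x x', x < n → x' < n → β x = β x' → x = x') ∧
      (∀ p q : Fin n, c ≤ p → p < q → (q : ℕ) < c + N → ∀ x x', x < x' → x' < n →
        0 < orient (C.red q) (C.blue (β x')) (C.red p) *
          orient (C.red q) (C.blue (β x')) (C.blue (β x))) := by
    intro ε m hε hrun1 hrun2
    let σ := Tuple.sort (fun u => -(ε * kB u))
    have hσ : Monotone ((fun u => -(ε * kB u)) ∘ σ) := Tuple.monotone_sort _
    let β : ℕ → Fin n := fun x => if h : x < n then σ ⟨x, h⟩ else z
    have hβ : ∀ x (hx : x < n), β x = σ ⟨x, hx⟩ := fun x hx => by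
      show (if h : x < n then σ ⟨x, h⟩ else z) = _
      rw [dif_pos hx]
    have hβinj : ∀ x x', x < n → x' < n → β x = β x' → x = x' := by
      intro x x' hx hx' h
      rw [hβ x hx, hβ x' hx'] at h
      have := σ.injective h
      exact Fin.mk.inj_iff.mp this
    have hβlt : ∀ x x', x < x' → x' < n → ε * kB (β x') < ε * kB (β x) := by
      intro x x' hxx' hx'
      have hx : x < n := hxx'.trans hx'
      have h1 : (⟨x, hx⟩ : Fin n) ≤ ⟨x', hx'⟩ := hxx'.le
      have h2 := hσ h1
      simp only [Function.comp] at h2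
      rw [← hβ x hx, ← hβ x' hx'] at h2
      have hne : β x' ≠ β x := fun h => by have := hβinj _ _ hx' hx h; omega
      have h3 := hkBinj _ _ hne
      rcases lt_or_eq_of_le (by linarith : ε * kB (β x') ≤ ε * kB (β x)) with h4 | h4
      · exact h4
      · exact absurd (mul_left_cancel₀ hε h4) h3
    have key : ∀ p q : Fin n, p < q → ε * kR p < ε * kR q → ∀ x x', x < x' → x' < n →
        0 < orient (C.red q) (C.blue (β x')) (C.red p) *
          orient (C.red q) (C.blue (β x')) (C.blue (β x)) := by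
      intro p q hpq hk x x' hxx' hx'
      have h1 := hβlt x x' hxx' hx'
      have hne : β x' ≠ β x := fun h => by
        have := hβinj _ _ hx' (hxx'.trans hx') h; omega
      have e1 : orient (C.red q) (C.blue (β x')) (C.red p)
          = orient (C.red p) (C.red q) (C.blue (β x')) := by rw [← orient_rot]
      have e2 : orient (C.red q) (C.blue (β x')) (C.blue (β x))
          = orient (C.blue (β x')) (C.blue (β x)) (C.red q) := orient_rot _ _ _
      rw [e1, e2]
      rcases lt_or_gt_of_ne hε with hneg | hpos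
      · have h2 : kR q < kR p := by nlinarith
        have h3 : kB (β x) < kB (β x') := by nlinarith
        have h4 := (hR q p (β x') (ne_of_gt hpq)).mpr h2
        have h5 := (hB (β x) (β x') q hne.symm).mpr h3
        rw [orient_swap] at h4 h5
        nlinarith
      · have h2 : kR p < kR q := by nlinarith
        have h3 : kB (β x') < kB (β x) := by nlinarith
        exact mul_pos ((hR p q (β x') (ne_of_lt hpq)).mpr h2)
          ((hB (β x') (β x) q hne).mpr h3)
    rcases le_or_gt n (2 * (n - m)) with h | h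
    · refine ⟨m, n - m, β, ?_, h, hβinj, ?_⟩
      · have := m.isLt; omega
      · intro p q hp hpq _ x x' hxx' hx'
        exact key p q hpq (hrun1 p q (Fin.le_def.mpr hp) hpq) x x' hxx' hx'
    · refine ⟨0, m, β, ?_, ?_, hβinj, ?_⟩
      · have := m.isLt; omega
      · omega
      · intro p q _ hpq hq x x' hxx' hx'
        exact key p q hpq (hrun2 p q hpq (Fin.lt_def.mpr (by omega))) x x' hxx' hx'
  have hnonempty : Nonempty (Fin n) := ⟨z⟩
  rcases C.cyclicOrder with hccw | hcw
  · obtain ⟨m, hm⟩ := Finite.exists_min kR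
    obtain ⟨c', N, β, h1, h2, h3, h4⟩ := hfin 1 m one_ne_zero (by
      intro p q hmp hpq
      simp only [one_mul]
      rcases eq_or_lt_of_le hmp with rfl | hmp
      · exact lt_of_le_of_ne (hm q) (hkRinj _ _ (ne_of_lt hpq))
      · by_contra hcon
        push Not at hcon
        have h1 : kR q < kR p := lt_of_le_of_ne hcon (hkRinj _ _ (ne_of_gt hpq))
        have h2 : kR m < kR q := lt_of_le_of_ne (hm q) (hkRinj _ _ (ne_of_lt (hmp.trans hpq)))
        have h3 := hcyc m q p h2 h1
        have h4 := hccw m p q hmp hpq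
        rw [hor, orient_swap'] at h4
        linarith) (by
      intro p q hpq hqm
      simp only [one_mul]
      by_contra hcon
      push Not at hcon
      have h1 : kR q < kR p := lt_of_le_of_ne hcon (hkRinj _ _ (ne_of_gt hpq))
      have h2 : kR m < kR q := lt_of_le_of_ne (hm q) (hkRinj _ _ (ne_of_gt hqm))
      have h3 := hcyc m q p h2 h1
      have h4 := hccw p q m hpq hqm
      rw [hor, orient_rot, orient_rot, orient_swap'] at h4
      linarith)
    exact ⟨c', N, β, h1, h2, h3, h4, hne1, hne2⟩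
  · obtain ⟨m, hm⟩ := Finite.exists_max kR
    obtain ⟨c', N, β, h1, h2, h3, h4⟩ := hfin (-1) m (by norm_num) (by
      intro p q hmp hpq
      simp only [neg_mul, one_mul, neg_lt_neg_iff]
      rcases eq_or_lt_of_le hmp with rfl | hmp
      · exact lt_of_le_of_ne (hm q) (hkRinj _ _ (ne_of_gt hpq))
      · by_contra hcon
        push Not at hcon
        have h1 : kR p < kR q := lt_of_le_of_ne hcon (hkRinj _ _ (ne_of_lt hpq))
        have h2 : kR q < kR m := lt_of_le_of_ne (hm q) (hkRinj _ _ (ne_of_gt (hmp.trans hpq)))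
        have h3 := hcyc p q m h1 h2
        have h4 := hcw m p q hmp hpq
        rw [hor, orient_rot] at h4
        linarith) (by
      intro p q hpq hqm
      simp only [neg_mul, one_mul, neg_lt_neg_iff]
      by_contra hcon
      push Not at hcon
      have h1 : kR p < kR q := lt_of_le_of_ne hcon (hkRinj _ _ (ne_of_lt hpq))
      have h2 : kR q < kR m := lt_of_le_of_ne (hm q) (hkRinj _ _ (ne_of_lt hqm))
      have h3 := hcyc p q m h1 h2
      have h4 := hcw p q m hpq hqm
      rw [hor] at h4
      linarith)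
    exact ⟨c', N, β, h1, h2, h3, h4, hne1, hne2⟩

/-! ### The lower bound -/

theorem lower_path : ∃ n₀ : ℕ, 2 ≤ n₀ ∧ ∀ n : ℕ, n₀ ≤ n → ∀ C : Config n,
    ∃ (m : ℕ) (v : ℕ → Vertex n), IsHarmonicAlternatingPath C m v ∧
      (n : ℝ) / (50000 * Real.log n) ≤ m := by
  obtain ⟨n₀, hn₀⟩ := lower_comb
  refine ⟨max n₀ 2, le_max_right _ _, ?_⟩
  intro n hn C
  have hn0 : 0 < n := by have := le_max_right n₀ 2; omega
  obtain ⟨c, N, β, hcN, hnN, hβinj, hsep, hne1, hne2⟩ := linear_structure hn0 C
  obtain ⟨m, j, i, hm, hj1, hj2, hi1, hi2, hw⟩ := hn₀ n (by have := le_max_left n₀ 2; omega)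
    (fun x => ((β x : ℕ) : ℤ)) (by
      intro x x' hx hx' h
      apply hβinj x x' hx hx'
      apply Fin.ext
      exact_mod_cast h)
  let ρ : ℕ → Fin n := fun k => if h : c + i k < n then ⟨c + i k, h⟩ else ⟨0, hn0⟩
  have hiN : ∀ k < m, i k < N := fun k hk => by have := hi2 k hk; omega
  have hρ : ∀ k < m, ((ρ k : Fin n) : ℕ) = c + i k := by
    intro k hk
    have h1 : c + i k < n := by have := hiN k hk; omega
    show ((if h : c + i k < n then (⟨c + i k, h⟩ : Fin n) else ⟨0, hn0⟩ : Fin n) : ℕ) = c + i k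
    rw [dif_pos h1]
  let v : ℕ → Vertex n := fun t => if t % 2 = 0 then Sum.inr (β (j (t / 2))) else Sum.inl (ρ (t / 2))
  have hv0 : ∀ t, t % 2 = 0 → v t = Sum.inr (β (j (t / 2))) := fun t ht => if_pos ht
  have hv1 : ∀ t, t % 2 = 1 → v t = Sum.inl (ρ (t / 2)) := fun t ht => if_neg (by omega)
  have hjinj : ∀ k l, k ≤ m → l ≤ m → j k = j l → k = l := by
    intro k l hk hl h
    rcases lt_trichotomy k l with h1 | h1 | h1
    · have := hj1 k l h1 hl; omega
    · exact h1
    · have := hj1 l k h1 hk; omega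
  have hjmono : ∀ k l, k ≤ l → l ≤ m → j k ≤ j l := by
    intro k l hkl hl
    rcases Nat.eq_or_lt_of_le hkl with h1 | h1
    · rw [h1]
    · exact (hj1 k l h1 hl).le
  have hρinj : ∀ k l, k < m → l < m → ρ k = ρ l → k = l := by
    intro k l hk hl h
    have h1 := congrArg Fin.val h
    rw [hρ k hk, hρ l hl] at h1
    rcases lt_trichotomy k l with h2 | h2 | h2
    · have := hi1 k l h2 hl; omega
    · exact h2
    · have := hi1 l k h2 hk; omega
  -- the form of the edges
  have hedge : ∀ t, (v t = Sum.inr (β (j ((t + 1) / 2))) ∧ v (t + 1) = Sum.inl (ρ (t / 2))) ∨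
      (v t = Sum.inl (ρ (t / 2)) ∧ v (t + 1) = Sum.inr (β (j ((t + 1) / 2)))) := by
    intro t
    rcases Nat.mod_two_eq_zero_or_one t with h | h
    · left
      refine ⟨?_, ?_⟩
      · rw [hv0 t h]; congr 3; omega
      · rw [hv1 (t + 1) (by omega)]; congr 2; omega
    · right
      refine ⟨hv1 t h, ?_⟩
      rw [hv0 (t + 1) (by omega)]
  have hseg : ∀ t, segment ℝ (C.pos (v t)) (C.pos (v (t + 1)))
      = segment ℝ (C.red (ρ (t / 2))) (C.blue (β (j ((t + 1) / 2)))) := by
    intro t
    rcases hedge t with ⟨h1, h2⟩ | ⟨h1, h2⟩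
    · rw [h1, h2, segment_symm]; rfl
    · rw [h1, h2]; rfl
  have hredv : ∀ t, (Sum.inl (ρ (t / 2)) = v t ∨ Sum.inl (ρ (t / 2)) = v (t + 1)) := by
    intro t
    rcases hedge t with ⟨h1, h2⟩ | ⟨h1, h2⟩
    · exact Or.inr h2.symm
    · exact Or.inl h1.symm
  have hbluev : ∀ t, (Sum.inr (β (j ((t + 1) / 2))) = v t ∨
      Sum.inr (β (j ((t + 1) / 2))) = v (t + 1)) := by
    intro t
    rcases hedge t with ⟨h1, h2⟩ | ⟨h1, h2⟩
    · exact Or.inl h1.symm
    · exact Or.inr h2.symm
  -- plane, ordered version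
  have hplane : ∀ k l, k < l → l < 2 * m →
      ∀ x ∈ segment ℝ (C.pos (v k)) (C.pos (v (k + 1))),
      x ∈ segment ℝ (C.pos (v l)) (C.pos (v (l + 1))) →
      ∃ w, (w = v k ∨ w = v (k + 1)) ∧ (w = v l ∨ w = v (l + 1)) ∧ x = C.pos w := by
    intro k l hkl hl x hx hx'
    rw [hseg] at hx hx'
    by_cases hkl2 : k / 2 = l / 2
    · -- common red point
      have h1 : (k + 1) / 2 ≠ (l + 1) / 2 := by omega
      have h2 : β (j ((k + 1) / 2)) ≠ β (j ((l + 1) / 2)) := by
        intro h
        apply h1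
        apply hjinj _ _ (by omega) (by omega)
        exact hβinj _ _ (hj2 _ (by omega)) (hj2 _ (by omega)) h
      refine ⟨Sum.inl (ρ (k / 2)), hredv k, by rw [hkl2]; exact hredv l, ?_⟩
      rw [hkl2] at hx ⊢
      exact inter_common (hne2 _ _ _ h2) x hx hx'
    · have hlt : k / 2 < l / 2 := by omega
      have hrlt : ρ (k / 2) < ρ (l / 2) := by
        rw [Fin.lt_def, hρ _ (by omega), hρ _ (by omega)]
        have := hi1 (k / 2) (l / 2) hlt (by omega)
        omega
      by_cases hbb : (k + 1) / 2 = (l + 1) / 2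
      · refine ⟨Sum.inr (β (j ((k + 1) / 2))), hbluev k, by rw [hbb]; exact hbluev l, ?_⟩
        rw [hbb] at hx ⊢
        rw [segment_symm] at hx hx'
        exact inter_common (hne1 _ _ _ (ne_of_lt hrlt)) x hx hx'
      · exfalso
        have hlt2 : (k + 1) / 2 < (l + 1) / 2 := by omega
        have hjlt := hj1 _ _ hlt2 (by omega)
        have hpos := hsep (ρ (k / 2)) (ρ (l / 2)) (by rw [hρ _ (by omega)]; omega) hrlt
          (by rw [hρ _ (by omega)]; have := hiN (l / 2) (by omega); omega)
          (j ((k + 1) / 2)) (j ((l + 1) / 2)) hjlt (hj2 _ (by omega))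
        exact disjoint_segments hpos x hx hx'
  refine ⟨2 * m, v, ?_, by push_cast; exact hm⟩
  constructor
  · intro k hk l hl hkl
    rcases Nat.mod_two_eq_zero_or_one k with h | h <;>
      rcases Nat.mod_two_eq_zero_or_one l with h' | h'
    · rw [hv0 k h, hv0 l h'] at hkl
      have h1 := Sum.inr_injective hkl
      have h2 := hβinj _ _ (hj2 _ (by omega)) (hj2 _ (by omega)) h1
      have h3 := hjinj _ _ (by omega) (by omega) h2
      omega
    · rw [hv0 k h, hv1 l h'] at hkl
      exact absurd hkl (by simp)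
    · rw [hv1 k h, hv0 l h'] at hkl
      exact absurd hkl (by simp)
    · rw [hv1 k h, hv1 l h'] at hkl
      have h1 := Sum.inl_injective hkl
      have h3 := hρinj _ _ (by omega) (by omega) h1
      omega
  · intro k _
    rcases hedge k with ⟨h1, h2⟩ | ⟨h1, h2⟩ <;> rw [h1, h2] <;> simp
  · intro k hk l hl heq
    have hlab : ∀ t, t < 2 * m → ((label (v t) + label (v (t + 1)) : ℕ) : ℤ)
        = c + ((i (t / 2) : ℤ) + ((β (j ((t + 1) / 2)) : ℕ) : ℤ)) := by
      intro t ht
      have h3 := hρ (t / 2) (by omega)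
      rcases hedge t with ⟨h1, h2⟩ | ⟨h1, h2⟩
      · rw [h1, h2]
        simp only [label, Sum.elim_inr, Sum.elim_inl]
        rw [h3]; push_cast; ring
      · rw [h1, h2]
        simp only [label, Sum.elim_inr, Sum.elim_inl]
        rw [h3]; push_cast; ring
    have h1 := hlab k hk
    have h2 := hlab l hl
    rw [heq, h2] at h1
    have h3 : (i (k / 2) : ℤ) + ((β (j ((k + 1) / 2)) : ℕ) : ℤ)
        = i (l / 2) + ((β (j ((l + 1) / 2)) : ℕ) : ℤ) := by linarith
    have hx : ∀ t, j ((t + 1) / 2) = j (t / 2) ∨ j ((t + 1) / 2) = j (t / 2 + 1) := by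
      intro t
      rcases Nat.mod_two_eq_zero_or_one t with h | h
      · left; congr 1; omega
      · right; congr 1; omega
    obtain ⟨h4, h5⟩ := hw (k / 2) (by omega) (l / 2) (by omega) _ (hx k) _ (hx l) h3
    have h6 := hjinj _ _ (by omega) (by omega) h5
    omega
  · intro k hk l hl hkl x hx hx'
    rcases Nat.lt_or_gt_of_ne hkl with h | h
    · exact hplane k l h hl x hx hx'
    · obtain ⟨w, hw1, hw2, hw3⟩ := hplane l k h hk x hx' hx
      exact ⟨w, hw2, hw1, hw3⟩

/-! ### The upper bound: points on a parabola -/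

/-- A point of the parabola `y = x²`. -/
def par (x : ℝ) : ℝ × ℝ := (x, x ^ 2)

lemma par_injective : Function.Injective par := fun _ _ h => congrArg Prod.fst h

lemma orientation_par (a b c : ℝ) :
    orientation (par a) (par b) (par c) = (b - a) * (c - a) * (c - b) := by
  unfold orientation par; ring

lemma par_not_mem_hull (a : ℝ) (P : Set (ℝ × ℝ)) (hP : ∀ p ∈ P, ∃ t : ℝ, t ≠ a ∧ p = par t) :
    par a ∉ convexHull ℝ P := by
  intro h
  let H : Set (ℝ × ℝ) := {p | 0 < p.2 - 2 * a * p.1 + a ^ 2}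
  have hH : Convex ℝ H := by
    intro p hp q hq s t hs ht hst
    simp only [H, Set.mem_ofPred_eq] at hp hq ⊢
    simp only [Prod.fst_add, Prod.snd_add, Prod.smul_fst, Prod.smul_snd, smul_eq_mul]
    have e : s * p.2 + t * q.2 - 2 * a * (s * p.1 + t * q.1) + a ^ 2
        = s * (p.2 - 2 * a * p.1 + a ^ 2) + t * (q.2 - 2 * a * q.1 + a ^ 2) := by
      have : s = 1 - t := by linarith
      rw [this]; ring
    rw [e]
    rcases eq_or_lt_of_le hs with h0 | h0
    · have h1 : t = 1 := by linarith
      rw [← h0, h1]; linarith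
    · have := mul_pos h0 hp
      have := mul_nonneg ht hq.le
      linarith
  have hsub : P ⊆ H := by
    intro p hp
    obtain ⟨t, ht, rfl⟩ := hP p hp
    simp only [H, par, Set.mem_ofPred_eq]
    have : (t - a) ≠ 0 := sub_ne_zero.mpr ht
    have h1 : 0 < (t - a) ^ 2 := by positivity
    linarith [h1]
  have h1 := convexHull_min hsub hH h
  simp only [H, par, Set.mem_ofPred_eq] at h1
  linarith

/-- Crossing chords of the parabola meet. -/
lemma chords_cross {a b c d : ℝ} (hab : a < b) (hbc : b < c) (hcd : c < d) :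
    ∃ x, x ∈ segment ℝ (par a) (par c) ∧ x ∈ segment ℝ (par b) (par d) := by
  have hden : 0 < b + d - a - c := by linarith
  set x := (b * d - a * c) / (b + d - a - c) with hx
  have hxb : b < x := by
    rw [hx, lt_div_iff₀ hden]
    nlinarith [mul_pos (sub_pos.mpr hab) (sub_pos.mpr hbc)]
  have hxc : x < c := by
    rw [hx, div_lt_iff₀ hden]
    nlinarith [mul_pos (sub_pos.mpr hbc) (sub_pos.mpr hcd)]
  have hxe : x * (b + d - a - c) = b * d - a * c := by
    rw [hx]; field_simp
  have hac : 0 < c - a := by linarith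
  have hbd : 0 < d - b := by linarith
  refine ⟨(x, (a + c) * x - a * c), ?_, ?_⟩
  · refine ⟨(c - x) / (c - a), (x - a) / (c - a), by apply div_nonneg <;> linarith,
      by apply div_nonneg <;> linarith, by field_simp; ring, ?_⟩
    ext
    · simp only [par, Prod.fst_add, Prod.smul_fst, smul_eq_mul]
      field_simp; ring
    · simp only [par, Prod.snd_add, Prod.smul_snd, smul_eq_mul]
      field_simp; ring
  · refine ⟨(d - x) / (d - b), (x - b) / (d - b), by apply div_nonneg <;> linarith,
      by apply div_nonneg <;> linarith, by field_simp; ring, ?_⟩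
    have e : (a + c) * x - a * c = (b + d) * x - b * d := by linarith
    rw [e]
    ext
    · simp only [par, Prod.fst_add, Prod.smul_fst, smul_eq_mul]
      field_simp; ring
    · simp only [par, Prod.snd_add, Prod.smul_snd, smul_eq_mul]
      field_simp; ring

/-- The configuration on the parabola whose blue points, from right to left, carry the labels
`σ.symm 0, σ.symm 1, …`; here `σ u` is the position of the blue point with label `u`. -/
noncomputable def parConfig (n : ℕ) (σ : Equiv.Perm (Fin n)) : Config n where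
  red i := par (i : ℕ)
  blue u := par (2 * n - (σ u : ℕ))
  red_injective := by
    intro i j h
    have := par_injective h
    exact Fin.ext (by exact_mod_cast this)
  blue_injective := by
    intro u w h
    have h1 := par_injective h
    have h2 : ((σ u : ℕ) : ℝ) = ((σ w : ℕ) : ℝ) := by linarith
    exact σ.injective (Fin.ext (by exact_mod_cast h2))
  convexPosition := by
    intro p hp
    have hall : ∀ q ∈ Set.range (fun i : Fin n => par ((i : ℕ) : ℝ)) ∪
        Set.range (fun u : Fin n => par (2 * n - ((σ u : ℕ) : ℝ))), ∃ t : ℝ, q = par t := by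
      rintro q (⟨i, rfl⟩ | ⟨u, rfl⟩)
      · exact ⟨_, rfl⟩
      · exact ⟨_, rfl⟩
    obtain ⟨a, rfl⟩ := hall p hp
    apply par_not_mem_hull
    rintro q ⟨hq, hqa⟩
    obtain ⟨t, rfl⟩ := hall q hq
    exact ⟨t, fun h => hqa (by rw [h]; rfl), rfl⟩
  separated := by
    refine ⟨1, 0, n, ?_, ?_⟩
    · intro i
      have h1 : ((i : ℕ) : ℝ) < n := by exact_mod_cast i.isLt
      simp only [par]; linarith
    · intro u
      have h1 : ((σ u : ℕ) : ℝ) < n := by exact_mod_cast (σ u).isLt
      simp only [par]; linarith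
  cyclicOrder := by
    left
    intro i j k hij hjk
    rw [orientation_par]
    have h1 : ((i : ℕ) : ℝ) < ((j : ℕ) : ℝ) := by exact_mod_cast hij
    have h2 : ((j : ℕ) : ℝ) < ((k : ℕ) : ℝ) := by exact_mod_cast hjk
    exact mul_pos (mul_pos (by linarith) (by linarith)) (by linarith)

/-- Edges of a plane matching in `parConfig` are nested. -/
lemma nested {n : ℕ} (σ : Equiv.Perm (Fin n)) {E : Finset (Fin n × Fin n)}
    (hE : IsHarmonicAlternatingMatching (parConfig n σ) E) :
    ∀ e ∈ E, ∀ e' ∈ E, σ e.2 < σ e'.2 → e.1 < e'.1 := by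
  intro e he e' he' hlt
  have hne : e ≠ e' := by rintro rfl; exact lt_irrefl _ hlt
  have h1 := (hE.matching e he e' he' hne).1
  by_contra hcon
  have h2 : e'.1 < e.1 := lt_of_le_of_ne (not_lt.mp hcon) (fun h => h1 h.symm)
  have h3 := hE.plane e he e' he' hne
  have h4 : (((e'.1 : Fin n) : ℕ) : ℝ) < (((e.1 : Fin n) : ℕ) : ℝ) := by exact_mod_cast h2
  have h5 : ((σ e.2 : ℕ) : ℝ) < ((σ e'.2 : ℕ) : ℝ) := by exact_mod_cast hlt
  have h6 : (((e.1 : Fin n) : ℕ) : ℝ) < n := by exact_mod_cast e.1.isLt
  have h7 : ((σ e'.2 : ℕ) : ℝ) < n := by exact_mod_cast (σ e'.2).isLt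
  obtain ⟨x, hx1, hx2⟩ := chords_cross (a := (((e'.1 : Fin n) : ℕ) : ℝ))
    (b := (((e.1 : Fin n) : ℕ) : ℝ)) (c := 2 * n - ((σ e'.2 : ℕ) : ℝ))
    (d := 2 * n - ((σ e.2 : ℕ) : ℝ)) h4 (by linarith) (by linarith)
  exact Set.disjoint_left.mp h3 hx2 hx1

theorem upper_config : ∃ n₀ : ℕ, ∀ n : ℕ, n₀ ≤ n → ∃ C : Config n,
    (M C : ℝ) ≤ 56 * n / (Real.log n) ^ ((1 : ℝ) / 12) := by
  obtain ⟨n₀, hn₀⟩ := upper_comb
  refine ⟨n₀, ?_⟩
  intro n hn
  obtain ⟨φ, hφ1, hφ2, hφ3⟩ := hn₀ n hn
  -- the permutation: position ↦ label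
  let π : Fin n → Fin n := fun x => ⟨φ x, hφ1 x x.isLt⟩
  have hπ : Function.Bijective π := by
    apply Finite.injective_iff_bijective.mp
    intro x y h
    have h1 : φ x = φ y := Fin.mk.inj_iff.mp h
    exact Fin.ext (hφ2 x y x.isLt y.isLt h1)
  let e₀ : Equiv.Perm (Fin n) := Equiv.ofBijective π hπ
  let σ : Equiv.Perm (Fin n) := e₀.symm
  refine ⟨parConfig n σ, ?_⟩
  obtain ⟨E, hE, hEcard⟩ := (isGreatest_M (parConfig n σ)).1
  have hnest := nested σ hE
  -- translate
  have hφσ : ∀ u : Fin n, φ (σ u) = u := by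
    intro u
    have h1 : π (σ u) = u := e₀.apply_symm_apply u
    exact congrArg Fin.val h1
  let E' : Finset (ℕ × ℕ) := E.image fun e => ((σ e.2 : ℕ), (e.1 : ℕ))
  have hmem : ∀ x ∈ E', ∃ e ∈ E, x = ((σ e.2 : ℕ), (e.1 : ℕ)) := by
    intro x hx
    obtain ⟨e, he, rfl⟩ := Finset.mem_image.mp hx
    exact ⟨e, he, rfl⟩
  have hmain := hφ3 E' (by
      intro x hx
      obtain ⟨e, _, rfl⟩ := hmem x hx
      exact ⟨(σ e.2).isLt, e.1.isLt⟩) (by
      intro x hx y hy hxy
      obtain ⟨e, he, rfl⟩ := hmem x hx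
      obtain ⟨e', he', rfl⟩ := hmem y hy
      simp only at hxy
      have h1 : e.2 = e'.2 := σ.injective (Fin.ext hxy)
      by_cases hne : e = e'
      · rw [hne]
      · exact absurd h1 (hE.matching e he e' he' hne).2) (by
      intro x hx y hy hxy
      obtain ⟨e, he, rfl⟩ := hmem x hx
      obtain ⟨e', he', rfl⟩ := hmem y hy
      exact hnest e he e' he' hxy)
  have hcard : nw φ E' = E.card := by
    unfold nw
    rw [Finset.image_image]
    apply Finset.card_image_of_injOn
    intro e he e' he' h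
    simp only [Function.comp] at h
    rw [hφσ, hφσ] at h
    exact hE.harmonic e he e' he' h
  rw [hcard, hEcard] at hmain
  exact hmain

/-! ### The final statement -/

lemma f_le {n : ℕ} (C : Config n) : f n ≤ L C := Nat.sInf_le ⟨C, rfl⟩

lemma g_le {n : ℕ} (C : Config n) : g n ≤ M C := Nat.sInf_le ⟨C, rfl⟩

/-- Configurations exist, so the minima `f n` and `g n` are attained. -/
theorem isLeast_f (n : ℕ) : IsLeast (Set.range fun C : Config n => L C) (f n) :=
  ⟨Nat.sInf_mem ⟨_, parConfig n (Equiv.refl _), rfl⟩, fun _ hx => Nat.sInf_le hx⟩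

theorem isLeast_g (n : ℕ) : IsLeast (Set.range fun C : Config n => M C) (g n) :=
  ⟨Nat.sInf_mem ⟨_, parConfig n (Equiv.refl _), rfl⟩, fun _ hx => Nat.sInf_le hx⟩

/-- **Main theorem.**  For all sufficiently large `n`,
`n / (50000 log n) ≤ f n ≤ 112 n / (log n)^(1/12)` and
`n / (100000 log n) ≤ g n ≤ 56 n / (log n)^(1/12)`. -/
theorem result : ∃ n₀ : ℕ, ∀ n : ℕ, n₀ ≤ n →
    ((n : ℝ) / (50000 * Real.log n) ≤ f n ∧
      (f n : ℝ) ≤ 112 * n / (Real.log n) ^ ((1 : ℝ) / 12)) ∧
    ((n : ℝ) / (100000 * Real.log n) ≤ g n ∧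
      (g n : ℝ) ≤ 56 * n / (Real.log n) ^ ((1 : ℝ) / 12)) := by
  obtain ⟨n₁, hn₁2, hn₁⟩ := lower_path
  obtain ⟨n₂, hn₂⟩ := upper_config
  refine ⟨max n₁ n₂, ?_⟩
  intro n hn
  have hn1 : n₁ ≤ n := (le_max_left _ _).trans hn
  have hn2 : n₂ ≤ n := (le_max_right _ _).trans hn
  have hn0 : 0 < n := by omega
  have hlog : 0 < Real.log n := Real.log_pos (by exact_mod_cast (by omega : 1 < n))
  obtain ⟨C, hC⟩ := hn₂ n hn2
  refine ⟨⟨?_, ?_⟩, ⟨?_, ?_⟩⟩
  · obtain ⟨C', hC'⟩ := (isLeast_f n).1
    simp only at hC'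
    obtain ⟨m, v, hv, hm⟩ := hn₁ n hn1 C'
    have h1 := le_L hv
    rw [hC'] at h1
    have h2 : (m : ℝ) ≤ f n := by exact_mod_cast h1
    linarith
  · have h1 : f n ≤ 2 * M C := (f_le C).trans (L_le_two_M hn0 C)
    have h2 : (f n : ℝ) ≤ 2 * M C := by exact_mod_cast h1
    calc (f n : ℝ) ≤ 2 * M C := h2
      _ ≤ 2 * (56 * n / (Real.log n) ^ ((1 : ℝ) / 12)) := by linarith
      _ = 112 * n / (Real.log n) ^ ((1 : ℝ) / 12) := by ring
  · obtain ⟨C', hC'⟩ := (isLeast_g n).1
    simp only at hC'
    obtain ⟨m, v, hv, hm⟩ := hn₁ n hn1 C'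
    obtain ⟨E, hE, hmE⟩ := half hv
    have h1 := le_M hE
    rw [hC'] at h1
    have h2 : (m : ℝ) ≤ 2 * g n := by exact_mod_cast hmE.trans (Nat.mul_le_mul_left _ h1)
    have h3 : (n : ℝ) / (100000 * Real.log n) = (n : ℝ) / (50000 * Real.log n) / 2 := by
      field_simp; norm_num
    rw [h3]
    linarith
  · have h1 : (g n : ℝ) ≤ M C := by exact_mod_cast g_le C
    linarith

end Pool.Agent.Lib.MP_70146a_co.Old.PolylogBounds
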